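import Pool.Agent.H.MP_1b30fb_an.Main

namespace Pool.Agent.Results.MP_1b30fb_an.Yes

open Filter Topology
open scoped ENNReal

/-- The character `e_b(x) = exp(2πi (b·x)/p)` of `ℤ_p²`. -/
noncomputable def chi (p : ℕ) (b x : ZMod p × ZMod p) : ℂ :=
  Complex.exp (2 * Real.pi * Complex.I * ((b.1 * x.1 + b.2 * x.2).val : ℂ) / p)

/-- The square matrix `T(E,B)`; the set `B` is listed injectively by `b`, indexed by `E`. -/
noncomputable def T (p : ℕ) (E : Finset (ZMod p × ZMod p)) (b : E ↪ ZMod p × ZMod p) :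
    Matrix E E ℂ := fun x y => chi p (b y) x

/-- Operator norm of a square matrix for the Euclidean norms. -/
noncomputable def opNorm {X : Type} [Fintype X] [DecidableEq X] (M : Matrix X X ℂ) : ℝ :=
  ‖Matrix.toEuclideanCLM (n := X) (𝕜 := ℂ) M‖

open Classical in
/-- Riesz ratio of `B` relative to `E`. -/
noncomputable def rhoB (p : ℕ) (E : Finset (ZMod p × ZMod p)) (b : E ↪ ZMod p × ZMod p) : ℝ≥0∞ :=
  if (T p E b).det ≠ 0 then ENNReal.ofReal (opNorm (T p E b) ^ 2 * opNorm (T p E b)⁻¹ ^ 2) else ⊤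

/-- Riesz ratio of `E`. -/
noncomputable def rho (p : ℕ) (E : Finset (ZMod p × ZMod p)) : ℝ≥0∞ := ⨅ b, rhoB p E b

/-- `({0} × ℤ_p) ∪ {(t,t)} ∪ {(1,0)}`. -/
def Eset (p : ℕ) : Finset (ZMod p × ZMod p) :=
  (Finset.range p).image (fun t : ℕ => ((0 : ZMod p), (t : ZMod p))) ∪
    (Finset.range p).image (fun t : ℕ => ((t : ZMod p), (t : ZMod p))) ∪ {(1, 0)}

lemma mem_Eset (p : ℕ) [NeZero p] (x : ZMod p × ZMod p) :
    x ∈ Eset p ↔ x.1 = 0 ∨ x.1 = x.2 ∨ x = (1, 0) := by
  simp only [Eset, Finset.mem_union, Finset.mem_image, Finset.mem_range, Finset.mem_singleton,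
    or_assoc]
  refine or_congr ⟨?_, fun h => ?_⟩ (or_congr ⟨?_, fun h => ?_⟩ Iff.rfl)
  · rintro ⟨t, _, rfl⟩; rfl
  · exact ⟨x.2.val, ZMod.val_lt _, by ext <;> simp [h]⟩
  · rintro ⟨t, _, rfl⟩; rfl
  · exact ⟨x.2.val, ZMod.val_lt _, by ext <;> simp [h]⟩

lemma card_Eset (p : ℕ) (hp : 2 ≤ p) : p + p ≤ Fintype.card (Eset p) := by
  have : NeZero p := ⟨by omega⟩
  have : Fact (1 < p) := ⟨hp⟩
  let f : ZMod p ⊕ ZMod p → Eset p := fun s => match s with
    | Sum.inl t => ⟨(0, t), (mem_Eset p _).2 (Or.inl rfl)⟩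
    | Sum.inr t => ⟨if t = 0 then (1, 0) else (t, t), (mem_Eset p _).2 (by
        split_ifs
        · exact Or.inr (Or.inr rfl)
        · exact Or.inr (Or.inl rfl))⟩
  have hf : Function.Injective f := by
    rintro (a | a) (b | b) h <;> simp only [f, Subtype.mk.injEq] at h
    · simpa using h
    · split_ifs at h with hb
      · simp at h
      · exact absurd (congrArg Prod.fst h).symm hb
    · split_ifs at h with hb
      · simp at h
      · exact absurd (congrArg Prod.fst h) hb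
    · split_ifs at h with ha hb hb
      · rw [ha, hb]
      · exact absurd (congrArg Prod.snd h).symm hb
      · exact absurd (congrArg Prod.snd h) ha
      · rw [show a = b from congrArg Prod.fst h]
  simpa using Fintype.card_le_of_injective f hf

noncomputable def om (p : ℕ) (a : ZMod p) : ℂ :=
  Complex.exp (2 * Real.pi * Complex.I * (a.val : ℂ) / p)

lemma norm_om (p : ℕ) (a : ZMod p) : ‖om p a‖ = 1 := by
  have : 2 * Real.pi * Complex.I * (a.val : ℂ) / p =
      ((2 * Real.pi * a.val / p : ℝ) : ℂ) * Complex.I := by push_cast; ring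
  rw [om, this, Complex.norm_exp_ofReal_mul_I]

lemma bound (p : ℕ) (hp : 2 ≤ p) :
    ENNReal.ofReal ((Nat.sqrt p : ℝ) / 4) ≤ rho p (Eset p) := by
  have : NeZero p := ⟨by omega⟩
  refine le_iInf fun b => ?_
  rw [rhoB]
  split_ifs with hd
  swap
  · exact le_top
  apply ENNReal.ofReal_le_ofReal
  have hs : 0 < Nat.sqrt p := Nat.sqrt_pos.2 (by omega)
  have hc := card_Eset p hp
  have key := Pool.Agent.H.MP_1b30fb_an.main (T p (Eset p) b) (isUnit_iff_ne_zero.2 hd)
    (fun x y => norm_om p _) ⟨(1, 0), (mem_Eset p _).2 (Or.inr (Or.inr rfl))⟩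
    (fun y => (b y).2) (fun y => (b y).1 + (b y).2)
    (fun v x => if x.1.1 = 0 then om p (v * x.1.2) else 0)
    (fun w x => if x.1.1 = 0 then 0 else om p (w * x.1.2))
    (by intro v x; split_ifs <;> simp [norm_om])
    (by intro v x; split_ifs <;> simp [norm_om])
    (by
      intro x hx y
      have hm := (mem_Eset p _).1 x.2
      change om p ((b y).1 * x.1.1 + (b y).2 * x.1.2) = _
      by_cases h0 : x.1.1 = 0
      · simp [h0]
      · have h1 : x.1.1 = x.1.2 := by
          rcases hm with h | h | h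
          · exact absurd h h0
          · exact h
          · exact absurd (Subtype.ext h) hx
        rw [if_neg h0, if_neg h0, zero_add, h1, add_mul])
    (by simpa using hc) (4 * Nat.sqrt p) (by omega)
  have hs' : (0:ℝ) < Nat.sqrt p := by exact_mod_cast hs
  have h1 : ((Nat.sqrt p : ℝ)) * Nat.sqrt p ≤ p := by exact_mod_cast Nat.sqrt_le p
  have h2 : (p : ℝ) + p ≤ Fintype.card (Eset p) := by exact_mod_cast hc
  rcases key with k | k
  · refine le_trans (le_of_eq ?_) k
    push_cast; ring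
  · refine le_trans ?_ k
    push_cast
    rw [div_le_div_iff₀ (by norm_num) (by positivity)]
    nlinarith

theorem result :
    (∀ p : ℕ, 2 ≤ p → ENNReal.ofReal ((Nat.sqrt p : ℝ) / 4) ≤ rho p (Eset p)) ∧
    Tendsto (fun n : ℕ => rho (Nat.nth Nat.Prime n) (Eset (Nat.nth Nat.Prime n))) atTop (𝓝 ⊤) := by
  refine ⟨bound, ?_⟩
  have h1 : Tendsto (fun n : ℕ => Nat.nth Nat.Prime n) atTop atTop :=
    (Nat.nth_strictMono Nat.infinite_setOfPred_prime).tendsto_atTop
  have h2 : Tendsto Nat.sqrt atTop atTop := by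
    refine tendsto_atTop_atTop.2 fun b => ⟨b * b, fun a ha => Nat.le_sqrt.2 ha⟩
  have h3 : Tendsto (fun n : ℕ => ((Nat.sqrt (Nat.nth Nat.Prime n) : ℕ) : ℝ) / 4) atTop atTop :=
    (tendsto_natCast_atTop_atTop.comp (h2.comp h1)).atTop_div_const (by norm_num)
  refine tendsto_nhds_top_mono (ENNReal.tendsto_ofReal_atTop.comp h3) ?_
  exact Eventually.of_forall fun n => bound _ (Nat.prime_nth_prime n).two_le

end Pool.Agent.Results.MP_1b30fb_an.Yes
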